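import Pool.Agent.X140.AD.Comb
import Pool.Agent.X140.CP.Su
import Pool.Agent.H176.DT.H12
import Pool.Agent.H176.DT.H10

/-!
# Stages which are adapted to a coarser valuation ring
-/

set_option autoImplicit false
set_option linter.unusedSectionVars false
set_option linter.unusedVariables false

universe u

open IsLocalRing Pool.Agent.W418.LU2 Pool.Agent.H176.DT

namespace Pool.Agent.X140.AD

variable {K : Type u} [Field K]

lemma mo_comb {ι κ : Type} [Fintype ι] [Fintype κ] {x : ι → K} (hx : ∀ i, x i ≠ 0) {x' : κ → K}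
    {δ : κ → ι → ℤ} (hδ : ∀ i, x' i = mo x (δ i)) (c : κ → ℤ) :
    mo x' c = mo x (∑ i, c i • δ i) := by
  rw [Pool.Agent.Y547.DT6.mo_sm hx]
  unfold mo
  refine Finset.prod_congr rfl fun i _ => ?_
  have h1 := Pool.Agent.Y547.DT6.mo_zs x (c i) (δ i)
  rw [show (∏ j, x j ^ (c i • δ i) j) = mo x (c i • δ i) from rfl, h1, hδ i]

lemma mo_inj {ι : Type} [Fintype ι] {V : ValuationSubring K} {x : ι → K} (hx : ∀ i, x i ≠ 0)
    (hind : ∀ δ : ι → ℤ, V.valuation (mo x δ) = 1 → δ = 0) {a b : ι → ℤ} (h : mo x a = mo x b) :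
    a = b := by
  have h1 : mo x (a + -b) = 1 := by
    rw [mo_add hx, h, ← mo_add hx, add_neg_cancel, mo_zero]
  have h2 := hind (a + -b) (by rw [h1, map_one])
  rw [← sub_eq_add_neg, sub_eq_zero] at h2
  exact h2

/-- Stages which are adapted to a coarser valuation ring. -/
theorem adapted (V V₁ : ValuationSubring K) (hV : V ≤ V₁) (A : Subring K) (hSU : SU V A)
    (G : Set K) (hG : G.Finite) (hG0 : ∀ g ∈ G, g ≠ 0) :
    ∃ (T : Set K) (s₂ s₁ : ℕ) (x : Fin (s₂ + s₁) → K), St V A T x ∧ (∀ i, (x i)⁻¹ ∉ V) ∧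
      (∀ l : Fin s₂, (x (Fin.castAdd s₁ l))⁻¹ ∈ V₁) ∧
      (∀ j : Fin s₁, (x (Fin.natAdd s₂ j))⁻¹ ∉ V₁) ∧
      (∀ δ : Fin s₁ → ℤ, V₁.valuation (mo (fun j => x (Fin.natAdd s₂ j)) δ) = 1 → δ = 0) ∧
      ∀ g ∈ G, PMon (PP V A T) x g := by
  classical
  obtain ⟨T₀, s, x₀, hSt₀, hx₀V, hind₀, hmon₀⟩ := p_ind V A hSU G hG hG0
  have hx₀ := hSt₀.reg.ne
  let Λ : Submodule ℤ (Fin s → ℤ) :=
    { carrier := {δ | V₁.valuation (mo x₀ δ) = 1}
      add_mem' := fun {a b} ha hb => by
        change V₁.valuation (mo x₀ (a + b)) = 1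
        rw [mo_add hx₀, map_mul]
        have ha' : V₁.valuation (mo x₀ a) = 1 := ha
        have hb' : V₁.valuation (mo x₀ b) = 1 := hb
        rw [ha', hb', one_mul]
      zero_mem' := by
        change V₁.valuation (mo x₀ 0) = 1
        rw [mo_zero, map_one]
      smul_mem' := fun c a ha => by
        change V₁.valuation (mo x₀ (c • a)) = 1
        have ha' : V₁.valuation (mo x₀ a) = 1 := ha
        rw [Pool.Agent.Y547.DT6.mo_zs, map_zpow₀, ha', one_zpow] }
  obtain ⟨D, hD⟩ : Λ.FG := IsNoetherian.noetherian Λ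
  let G' : Set K := (mo x₀ '' (D : Set (Fin s → ℤ))) ∪ (mo x₀ '' ((fun δ => -δ) '' (D : Set (Fin s → ℤ))))
  have hG' : G'.Finite := (D.finite_toSet.image _).union ((D.finite_toSet.image _).image _)
  have hmo : ∀ δ, PMon (PP V A T₀) x₀ (mo x₀ δ) := fun δ =>
    ⟨1, one_ne_zero, Subring.one_mem _, by rw [inv_one]; exact Subring.one_mem _, δ,
      (one_mul _).symm⟩
  obtain ⟨T, x', hTT, hSt, hRef, hx'x, hmon, hval⟩ := p_ref V A T₀ x₀ hSt₀ G' hG' (by
    rintro g (⟨δ, -, rfl⟩ | ⟨δ, -, rfl⟩) <;> exact hmo _)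
  have hx' := hSt.reg.ne
  choose δ hδ using hx'x
  -- the change of the basis
  let Φ : (Fin s → ℤ) →ₗ[ℤ] (Fin s → ℤ) := Fintype.linearCombination ℤ δ
  have hΦ : ∀ c, mo x' c = mo x₀ (Φ c) := fun c => mo_comb hx₀ hδ c
  have hΦs : Function.Surjective Φ := by
    rw [← LinearMap.range_eq_top, eq_top_iff]
    intro z _
    have h1 : ∀ j : Fin s, Pi.single j (1 : ℤ) ∈ LinearMap.range Φ := by
      intro j
      obtain ⟨γ', -, h⟩ := hRef (Pi.single j 1) (by
        intro i
        by_cases hij : i = j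
        · subst hij; simp
        · simp [Pi.single_eq_of_ne hij])
      rw [hΦ] at h
      exact ⟨γ', (mo_inj hx₀ hind₀ h).symm⟩
    have h2 : z = ∑ j, z j • Pi.single j (1 : ℤ) := by
      funext i
      simp [Finset.sum_apply, Pi.single_apply]
    rw [h2]
    exact Submodule.sum_mem _ fun j _ => Submodule.smul_mem _ _ (h1 j)
  have hΦi : Function.Injective Φ := IsNoetherian.injective_of_surjective_endomorphism Φ hΦs
  have hind : ∀ c : Fin s → ℤ, V.valuation (mo x' c) = 1 → c = 0 := by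
    intro c hc
    rw [hΦ] at hc
    apply hΦi
    rw [hind₀ _ hc, map_zero]
  have hx'P : ∀ i, x' i ∈ V := fun i => hSt.reg.PA (hSt.reg.mem i)
  have hx'V : ∀ i, (x' i)⁻¹ ∉ V := by
    intro i hi
    have h1 : V.valuation (mo x' (Pi.single i 1)) = 1 := by
      rw [mo_single, val_one_iff]
      exact ⟨hx' i, hx'P i, hi⟩
    have h2 := congrFun (hind _ h1) i
    simp at h2
  -- the support
  let p : Fin s → Prop := fun i => (x' i)⁻¹ ∈ V₁
  let S : Submodule ℤ (Fin s → ℤ) :=
    { carrier := {c | ∀ i, ¬ p i → c i = 0}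
      add_mem' := fun {a b} ha hb i hi => by
        change a i + b i = 0
        rw [ha i hi, hb i hi, add_zero]
      zero_mem' := fun i _ => rfl
      smul_mem' := fun c a ha i hi => by
        change c * a i = 0
        rw [ha i hi, mul_zero] }
  have hx'1 : ∀ i, V₁.valuation (x' i) ≤ 1 := fun i =>
    (V₁.valuation_le_one_iff _).2 (hV (hx'P i))
  have hx'lt : ∀ i, ¬ p i → V₁.valuation (x' i) < 1 := by
    intro i hi
    refine lt_of_le_of_ne (hx'1 i) fun h => hi ?_
    change (x' i)⁻¹ ∈ V₁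
    rw [← V₁.valuation_le_one_iff, map_inv₀, h, inv_one]
  have hS0 : ∀ ε : Fin s → ℤ, (∀ i, 0 ≤ ε i) → V₁.valuation (mo x' ε) = 1 → ε ∈ S := by
    intro ε hε h i hi
    by_contra hne
    have h1 : V₁.valuation (mo x' ε) < 1 := by
      unfold mo
      rw [map_prod, ← Finset.mul_prod_erase _ _ (Finset.mem_univ i)]
      have h2 : V₁.valuation (x' i ^ ε i) < 1 := by
        obtain ⟨n, hn⟩ := Int.eq_ofNat_of_zero_le (hε i)
        rw [hn, zpow_natCast, map_pow]
        refine pow_lt_one₀ zero_le' (hx'lt i hi) ?_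
        rintro rfl
        exact hne (by simpa using hn)
      have h3 : ∏ k ∈ Finset.univ.erase i, V₁.valuation (x' k ^ ε k) ≤ 1 := by
        refine Finset.prod_le_one' fun k _ => ?_
        obtain ⟨n, hn⟩ := Int.eq_ofNat_of_zero_le (hε k)
        rw [hn, zpow_natCast, map_pow]
        exact pow_le_one₀ zero_le' (hx'1 k)
      exact mul_lt_one_of_lt_of_le h2 h3
    rw [h] at h1
    exact lt_irrefl _ h1
  have hexp : ∀ c : Fin s → ℤ, mo x' c ∈ PP V A T → ∀ i, 0 ≤ c i := fun c hc i =>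
    p_expo hSt.reg c hc i (hx'V i)
  have hDS : Λ ≤ S.map Φ := by
    rw [← hD, Submodule.span_le]
    intro d hd
    have hdΛ : V₁.valuation (mo x₀ d) = 1 := by
      have h1 : d ∈ Λ := by
        rw [← hD]
        exact Submodule.subset_span hd
      exact h1
    obtain ⟨c, rfl⟩ := hΦs d
    refine ⟨c, ?_, rfl⟩
    rw [← hΦ] at hdΛ
    rcases V.mem_or_inv_mem (mo x' c) with h1 | h1
    · refine hS0 c (hexp c (hval _ (Or.inl ⟨_, hd, (hΦ c).symm⟩) h1)) hdΛ
    · have h2 : (mo x' c)⁻¹ = mo x' (-c) := by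
        have h3 : mo x' c * mo x' (-c) = 1 := by
          rw [← mo_add hx', add_neg_cancel, mo_zero]
        exact inv_eq_of_mul_eq_one_right h3
      rw [h2] at h1
      have h4 : mo x' (-c) ∈ G' := by
        refine Or.inr ⟨-(Φ c), ⟨_, hd, rfl⟩, ?_⟩
        rw [hΦ, map_neg]
      have h5 := hS0 (-c) (hexp _ (hval _ h4 h1)) (by rw [← h2, map_inv₀, hdΛ, inv_one])
      have h6 := S.neg_mem h5
      rwa [neg_neg] at h6
  have hfin : ∀ c : Fin s → ℤ, V₁.valuation (mo x' c) = 1 → c ∈ S := by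
    intro c hc
    have h1 : Φ c ∈ Λ := by
      change V₁.valuation (mo x₀ (Φ c)) = 1
      rw [← hΦ]
      exact hc
    obtain ⟨c', hc', h2⟩ := hDS h1
    rwa [hΦi h2] at hc'
  -- the indices
  let e : Fin (Fintype.card {i // p i} + Fintype.card {i // ¬ p i}) ≃ Fin s :=
    finSumFinEquiv.symm.trans ((Equiv.sumCongr (Fintype.equivFin {i // p i}).symm
      (Fintype.equivFin {i // ¬ p i}).symm).trans (Equiv.sumCompl p))
  have he1 : ∀ l, e (Fin.castAdd _ l) = ((Fintype.equivFin {i // p i}).symm l : Fin s) := by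
    intro l
    change Equiv.sumCompl p (Equiv.sumCongr _ _ (finSumFinEquiv.symm (Fin.castAdd _ l))) = _
    rw [finSumFinEquiv_symm_apply_castAdd]
    rfl
  have he2 : ∀ j, e (Fin.natAdd _ j) = ((Fintype.equivFin {i // ¬ p i}).symm j : Fin s) := by
    intro j
    change Equiv.sumCompl p (Equiv.sumCongr _ _ (finSumFinEquiv.symm (Fin.natAdd _ j))) = _
    rw [finSumFinEquiv_symm_apply_natAdd]
    rfl
  refine ⟨T, _, _, fun i => x' (e i), Pool.Agent.X140.CP.st_equiv e hSt, fun i => hx'V _,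
    fun l => ?_, fun j => ?_, ?_, fun g hg =>
      Pool.Agent.X140.CP.pmon_equiv e (hmon g (hmon₀ g hg).1)⟩
  · change (x' (e (Fin.castAdd _ l)))⁻¹ ∈ V₁
    rw [he1]
    exact ((Fintype.equivFin {i // p i}).symm l).2
  · change (x' (e (Fin.natAdd _ j)))⁻¹ ∉ V₁
    rw [he2]
    exact ((Fintype.equivFin {i // ¬ p i}).symm j).2
  · intro c hc
    let c' : Fin s → ℤ := fun i => if hi : ¬ p i then c (Fintype.equivFin {i // ¬ p i} ⟨i, hi⟩)
      else 0
    have h1 : mo (fun j => x' (e (Fin.natAdd (Fintype.card {i // p i}) j))) c = mo x' c' := by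
      unfold mo
      rw [← Equiv.prod_comp e (fun i => x' i ^ c' i), Fin.prod_univ_add]
      have h2 : ∏ l, x' (e (Fin.castAdd (Fintype.card {i // ¬ p i}) l)) ^
          c' (e (Fin.castAdd (Fintype.card {i // ¬ p i}) l)) = 1 := by
        refine Finset.prod_eq_one fun l _ => ?_
        rw [he1]
        have h3 : c' ((Fintype.equivFin {i // p i}).symm l : Fin s) = 0 :=
          dif_neg (not_not.2 ((Fintype.equivFin {i // p i}).symm l).2)
        rw [h3, zpow_zero]
      rw [h2, one_mul]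
      refine Finset.prod_congr rfl fun j _ => ?_
      congr 1
      rw [he2]
      have h3 : c' ((Fintype.equivFin {i // ¬ p i}).symm j : Fin s) =
          c (Fintype.equivFin {i // ¬ p i} ((Fintype.equivFin {i // ¬ p i}).symm j)) :=
        dif_pos ((Fintype.equivFin {i // ¬ p i}).symm j).2
      rw [h3, Equiv.apply_symm_apply]
    rw [h1] at hc
    have h4 := hfin c' hc
    funext j
    have h5 := h4 _ ((Fintype.equivFin {i // ¬ p i}).symm j).2
    have h3 : c' ((Fintype.equivFin {i // ¬ p i}).symm j : Fin s) =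
        c (Fintype.equivFin {i // ¬ p i} ((Fintype.equivFin {i // ¬ p i}).symm j)) :=
      dif_pos ((Fintype.equivFin {i // ¬ p i}).symm j).2
    rw [h3, Equiv.apply_symm_apply] at h5
    exact h5

end Pool.Agent.X140.AD
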