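import Pool.Agent.Y547.DT6.Comb

/-!
# Monomials with product `ϖ`, with large exponents
-/

set_option autoImplicit false

universe u

namespace Pool.Agent.X140.AD

open Pool.Agent.W418.LU2 Pool.Agent.H176.DT Pool.Agent.Y547.DT6 Finset

theorem comb_b (hlat : S6_lat) (hsort : S6_sort) {E : Type u} [Field E] (v : Valuation E NNReal)
    {s : ℕ} (x : Fin s → E) (hx0 : ∀ i, x i ≠ 0) (hx1 : ∀ i, v (x i) < 1)
    (hind : ∀ δ : Fin s → ℤ, v (mo x δ) = 1 → δ = 0) (γ : Fin s → ℤ)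
    (hγ : ∃ c : Fin s → ℤ, ∑ i, c i * γ i = 1) (hγ1 : v (mo x γ) < 1) (b₀ : ℕ) :
    ∃ N0 : ℕ, ∀ N : ℕ, N0 ≤ N → 0 < N → ∀ {F : Type u} [Field F] [Algebra E F]
      (V : ValuationSubring F), V.comap (algebraMap E F) = v.valuationSubring →
      ∀ x' : Fin s → F,
      (∀ i, ∃ w : F, w ≠ 0 ∧ w ∈ V ∧ w⁻¹ ∈ V ∧ x' i = w * algebraMap E F (x i)) →
      ∀ ϖ : F, ϖ ^ N = mo x' γ →
      ∃ (m : Fin s → F) (A : Fin s → Fin s → ℕ), (∀ j, m j ≠ 0) ∧ (∀ j, m j ∈ V) ∧
        (∀ j, (m j)⁻¹ ∉ V) ∧ (∀ i, x' i = ∏ j, m j ^ A i j) ∧ (∀ i j, b₀ ≤ A i j) ∧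
        ∏ j, m j = ϖ ∧ ∀ j, ∃ (n : ℤ) (g : Fin s → ℤ), m j = ϖ ^ n * mo x' g := by
  classical
  obtain ⟨t, rfl, g, a1, a, hg1, hg2⟩ := hlat γ hγ
  obtain ⟨lam, hlam⟩ : ∃ lam : Fin (t + 1) → ℝ,
    lam = fun i => -Real.log ((v (x i) : NNReal) : ℝ) := ⟨_, rfl⟩
  have hvpos : ∀ δ, (0 : ℝ) < ((v (mo x δ) : NNReal) : ℝ) := fun δ => by
    have : v (mo x δ) ≠ 0 := (Valuation.ne_zero_iff v).2 (mo_ne_zero hx0 δ)
    exact_mod_cast pos_iff_ne_zero.2 this
  have hlampos : ∀ i, 0 < lam i := by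
    intro i
    rw [hlam]
    have h1 : (0 : ℝ) < ((v (x i) : NNReal) : ℝ) := by
      have : v (x i) ≠ 0 := (Valuation.ne_zero_iff v).2 (hx0 i)
      exact_mod_cast pos_iff_ne_zero.2 this
    have h2 : ((v (x i) : NNReal) : ℝ) < 1 := by exact_mod_cast hx1 i
    have := Real.log_neg h1 h2
    simp only
    linarith
  have hlog : ∀ δ, Real.log ((v (mo x δ) : NNReal) : ℝ) = -LH lam δ := fun δ => by
    rw [log_mo v x hx0 δ, hlam]
  have hL0 : ∀ δ, LH lam δ = 0 → δ = 0 := by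
    intro δ h
    apply hind
    have h1 := hlog δ
    rw [h, neg_zero] at h1
    have h2 := Real.eq_one_of_pos_of_log_eq_zero (hvpos δ) h1
    exact_mod_cast h2
  have hL1 : ∀ δ, 0 < LH lam δ → v (mo x δ) < 1 := by
    intro δ h
    have h1 : Real.log ((v (mo x δ) : NNReal) : ℝ) < 0 := by
      rw [hlog]
      linarith
    have h2 := (Real.log_neg_iff (hvpos δ)).1 h1
    exact_mod_cast h2
  obtain ⟨G, hG⟩ : ∃ G : ℝ, G = LH lam γ := ⟨_, rfl⟩
  have hGpos : 0 < G := by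
    have h1 : ((v (mo x γ) : NNReal) : ℝ) < 1 := by exact_mod_cast hγ1
    have h2 := Real.log_neg (hvpos γ) h1
    rw [hlog, ← hG] at h2
    linarith
  obtain ⟨ρ, hρ⟩ : ∃ ρ : Fin t → ℝ, ρ = fun j => LH lam (g j) / G := ⟨_, rfl⟩
  have hρ' : ∀ j, LH lam (g j) = G * ρ j := by
    intro j
    rw [hρ]
    field_simp
  have hLc : ∀ (n : ℤ) (b : Fin t → ℤ),
      LH lam (n • γ + ∑ j, b j • g j) = G * ((n : ℝ) + ∑ j, (b j : ℝ) * ρ j) := by
    intro n b
    rw [map_add, LH_zs, map_sum, ← hG, mul_add, Finset.mul_sum, mul_comm]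
    congr 1
    refine Finset.sum_congr rfl fun j _ => ?_
    rw [LH_zs, hρ' j]
    ring
  have hgen : ∀ (n : ℤ) (b : Fin t → ℤ), (n : ℝ) + ∑ j, (b j : ℝ) * ρ j = 0 → b = 0 := by
    intro n b h
    refine (hg2 n b (hL0 _ ?_)).2
    rw [hLc, h, mul_zero]
  obtain ⟨N0, hN0⟩ := exists_nat_gt (∑ i, G * (∑ j, |(a i j : ℝ)| + b₀) / lam i)
  refine ⟨N0, fun N hN hN1 F _ _ V hV x' hx' ϖ hϖ => ?_⟩
  have hNpos : (0 : ℝ) < N := by exact_mod_cast hN1
  have hNbig : ∀ i, ∑ j, |(a i j : ℝ)| + b₀ < N * lam i / G := by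
    intro i
    have h1 : G * (∑ j, |(a i j : ℝ)| + b₀) / lam i ≤ ∑ i, G * (∑ j, |(a i j : ℝ)| + b₀) / lam i :=
      Finset.single_le_sum (f := fun i => G * (∑ j, |(a i j : ℝ)| + b₀) / lam i) (fun i _ => by
        have h2 := hlampos i
        have h3 : 0 ≤ ∑ j, |(a i j : ℝ)| := Finset.sum_nonneg fun j _ => abs_nonneg _
        positivity) (Finset.mem_univ i)
    have h2 : (N0 : ℝ) ≤ N := by exact_mod_cast hN
    have h3 : G * (∑ j, |(a i j : ℝ)| + b₀) / lam i < N := lt_of_le_of_lt h1 (lt_of_lt_of_le hN0 h2)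
    rw [div_lt_iff₀ (hlampos i)] at h3
    rw [lt_div_iff₀ hGpos]
    linarith
  obtain ⟨f, hf⟩ : ∃ f : Fin t → ℤ, f = fun j => ⌊(N : ℝ) * ρ j⌋ := ⟨_, rfl⟩
  obtain ⟨r, hr⟩ : ∃ r : Fin t → ℝ, r = fun j => (N : ℝ) * ρ j - f j := ⟨_, rfl⟩
  have hr' : ∀ j, (N : ℝ) * ρ j = f j + r j := by
    intro j
    rw [hr]
    ring
  have hr0 : ∀ j, 0 ≤ r j := by
    intro j
    have := Int.floor_le ((N : ℝ) * ρ j)
    rw [hr, hf]
    simp only
    linarith
  have hr1 : ∀ j, r j < 1 := by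
    intro j
    have := Int.lt_floor_add_one ((N : ℝ) * ρ j)
    rw [hr, hf]
    simp only
    linarith
  have hsingle : ∀ (j : Fin t) (c : ℤ), ∑ l, ((Pi.single j c : Fin t → ℤ) l : ℝ) * ρ l =
      c * ρ j := by
    intro j c
    rw [Finset.sum_eq_single j]
    · simp
    · intro l _ hl
      rw [Pi.single_eq_of_ne hl]
      simp
    · simp
  have hN0' : (N : ℤ) ≠ 0 := by omega
  have hrne : ∀ j, r j ≠ 0 := by
    intro j h
    have h1 := hgen (-f j) (Pi.single j (N : ℤ)) (by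
      rw [hsingle]
      have := hr' j
      push_cast
      rw [this, h]
      ring)
    have h2 := congrFun h1 j
    rw [Pi.single_eq_same] at h2
    exact hN0' h2
  have hrinj : Function.Injective r := by
    intro j k h
    by_contra hne
    have h1 := hgen (-(f j - f k)) (Pi.single j (N : ℤ) - Pi.single k (N : ℤ)) (by
      have e1 : ∑ l, (((Pi.single j (N : ℤ) - Pi.single k (N : ℤ) : Fin t → ℤ) l : ℤ) : ℝ) * ρ l =
          (N : ℝ) * ρ j - (N : ℝ) * ρ k := by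
        have e2 : ∀ l, (((Pi.single j (N : ℤ) - Pi.single k (N : ℤ) : Fin t → ℤ) l : ℤ) : ℝ) * ρ l =
            ((Pi.single j (N : ℤ) : Fin t → ℤ) l : ℝ) * ρ l -
              ((Pi.single k (N : ℤ) : Fin t → ℤ) l : ℝ) * ρ l := by
          intro l
          rw [Pi.sub_apply]
          push_cast
          ring
        rw [Finset.sum_congr rfl fun l _ => e2 l, Finset.sum_sub_distrib, hsingle, hsingle]
        push_cast
        ring
      rw [e1, hr' j, hr' k, h]
      push_cast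
      ring)
    have h2 := congrFun h1 j
    rw [Pi.sub_apply, Pi.single_eq_same, Pi.single_eq_of_ne hne, sub_zero] at h2
    exact hN0' h2
  obtain ⟨n, h, S, hs1, hs2, hs3, hs4, hs5, hs6⟩ := hsort r
    (fun j => ⟨lt_of_le_of_ne (hr0 j) (hrne j).symm, hr1 j⟩) hrinj
  -- the field elements
  choose w hw0 hw1 hw2 hw3 using hx'
  have halg : Function.Injective (algebraMap E F) := (algebraMap E F).injective
  have hx'0 : ∀ i, x' i ≠ 0 := by
    intro i
    rw [hw3 i]
    exact mul_ne_zero (hw0 i) ((map_ne_zero_iff _ halg).2 (hx0 i))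
  have hϖ0 : ϖ ≠ 0 := by
    rintro rfl
    rw [zero_pow (by omega)] at hϖ
    exact mo_ne_zero hx'0 γ hϖ.symm
  obtain ⟨z, hz⟩ : ∃ z : Fin t → F, z = fun j => mo x' (g j) * ϖ ^ (-f j) := ⟨_, rfl⟩
  have hz0 : ∀ j, z j ≠ 0 := by
    intro j
    rw [hz]
    exact mul_ne_zero (mo_ne_zero hx'0 _) (zpow_ne_zero _ hϖ0)
  have hZ : ∀ (e : ℤ) (b : Fin t → ℤ), ϖ ^ e * ∏ j, z j ^ b j =
      ϖ ^ (e - ∑ j, b j * f j) * mo x' (∑ j, b j • g j) := by
    intro e b
    have e1 : ∏ j, z j ^ b j = mo x' (∑ j, b j • g j) * ϖ ^ (-∑ j, b j * f j) := by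
      rw [mo_sm hx'0, ← Finset.sum_neg_distrib, zsum hϖ0, ← Finset.prod_mul_distrib]
      refine Finset.prod_congr rfl fun j _ => ?_
      rw [hz]
      simp only
      rw [mul_zpow, mo_zs, ← zpow_mul]
      congr 2
      ring
    rw [e1, sub_eq_add_neg, zpow_add₀ hϖ0]
    ring
  obtain ⟨m, hm⟩ : ∃ m : Fin (t + 1) → F, m = fun k => ϖ ^ n k * ∏ j, z j ^ h k j := ⟨_, rfl⟩
  have hm0 : ∀ k, m k ≠ 0 := by
    intro k
    rw [hm]
    exact mul_ne_zero (zpow_ne_zero _ hϖ0) (Finset.prod_ne_zero_iff.2 fun j _ =>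
      zpow_ne_zero _ (hz0 j))
  have hmC : ∀ C : Fin (t + 1) → ℤ, ∏ k, m k ^ C k =
      ϖ ^ (∑ k, n k * C k) * ∏ j, z j ^ (∑ k, h k j * C k) := by
    intro C
    have e1 : ∀ k, m k ^ C k = ϖ ^ (n k * C k) * ∏ j, z j ^ (h k j * C k) := by
      intro k
      rw [hm]
      simp only
      rw [mul_zpow, ← zpow_mul, ← Finset.prod_zpow]
      congr 1
      exact Finset.prod_congr rfl fun j _ => by rw [← zpow_mul]
    rw [Finset.prod_congr rfl fun k _ => e1 k, Finset.prod_mul_distrib, ← zsum hϖ0,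
      Finset.prod_comm]
    congr 1
    exact Finset.prod_congr rfl fun j _ => (zsum (hz0 j) _ _).symm
  obtain ⟨ee, hee⟩ : ∃ ee : Fin (t + 1) → ℤ, ee = fun i => N * a1 i + ∑ j, a i j * f j := ⟨_, rfl⟩
  obtain ⟨B, hB⟩ : ∃ B : Fin (t + 1) → Fin (t + 1) → ℤ,
    B = fun i k => ee i + ∑ j, a i j * (S k j : ℤ) := ⟨_, rfl⟩
  have hxm : ∀ i, x' i = ∏ k, m k ^ B i k := by
    intro i
    have e1 : ∑ k, n k * B i k = ee i := by
      rw [hB]
      simp only
      have : ∀ k, n k * (ee i + ∑ j, a i j * (S k j : ℤ)) =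
          n k * ee i + ∑ j, a i j * ((S k j : ℤ) * n k) := by
        intro k
        rw [mul_add, Finset.mul_sum]
        congr 1
        exact Finset.sum_congr rfl fun j _ => by ring
      rw [Finset.sum_congr rfl fun k _ => this k, Finset.sum_add_distrib, ← Finset.sum_mul, hs2,
        one_mul, Finset.sum_comm]
      have h0 : ∀ j, ∑ k, a i j * ((S k j : ℤ) * n k) = 0 := by
        intro j
        rw [← Finset.mul_sum, hs5 j, mul_zero]
      rw [Finset.sum_congr rfl fun j _ => h0 j, Finset.sum_const_zero, add_zero]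
    have e2 : ∀ j, ∑ k, h k j * B i k = a i j := by
      intro j
      rw [hB]
      simp only
      have : ∀ k, h k j * (ee i + ∑ l, a i l * (S k l : ℤ)) =
          h k j * ee i + ∑ l, a i l * ((S k l : ℤ) * h k j) := by
        intro k
        rw [mul_add, Finset.mul_sum]
        congr 1
        exact Finset.sum_congr rfl fun l _ => by ring
      rw [Finset.sum_congr rfl fun k _ => this k, Finset.sum_add_distrib, ← Finset.sum_mul, hs3,
        zero_mul, zero_add, Finset.sum_comm]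
      have h0 : ∀ l, ∑ k, a i l * ((S k l : ℤ) * h k j) = if l = j then a i l else 0 := by
        intro l
        rw [← Finset.mul_sum, hs6 l j]
        split_ifs <;> simp
      rw [Finset.sum_congr rfl fun l _ => h0 l, Finset.sum_ite_eq' univ j (fun l => a i l),
        if_pos (Finset.mem_univ j)]
    rw [hmC, e1, Finset.prod_congr rfl fun j _ => by rw [e2 j], hZ]
    have e3 : ee i - ∑ j, a i j * f j = N * a1 i := by
      rw [hee]
      ring
    rw [e3, zpow_mul, zpow_natCast, hϖ, ← mo_zs, ← mo_add hx'0, ← hg1 i, mo_single]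
  have hBpos : ∀ i k, (b₀ : ℤ) < B i k := by
    intro i k
    have e1 : lam i = G * ((a1 i : ℝ) + ∑ j, (a i j : ℝ) * ρ j) := by
      rw [← hLc, ← hg1 i, LH_single]
    have e2 : N * lam i / G = (ee i : ℝ) + ∑ j, (a i j : ℝ) * r j := by
      rw [e1, hee]
      push_cast
      have e3 : (N : ℝ) * (G * ((a1 i : ℝ) + ∑ j, (a i j : ℝ) * ρ j)) / G =
          N * a1 i + ∑ j, (a i j : ℝ) * (N * ρ j) := by
        have : ∑ j, (a i j : ℝ) * (N * ρ j) = N * ∑ j, (a i j : ℝ) * ρ j := by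
          rw [Finset.mul_sum]
          exact Finset.sum_congr rfl fun j _ => by ring
        rw [this]
        field_simp
      rw [e3, add_assoc, ← Finset.sum_add_distrib]
      congr 1
      refine Finset.sum_congr rfl fun j _ => ?_
      rw [hr' j]
      ring
    have e3 : (B i k : ℝ) = N * lam i / G + ∑ j, (a i j : ℝ) * ((S k j : ℝ) - r j) := by
      rw [e2, hB]
      push_cast
      rw [add_assoc, ← Finset.sum_add_distrib]
      congr 1
      exact Finset.sum_congr rfl fun j _ => by ring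
    have e4 : -∑ j, |(a i j : ℝ)| ≤ ∑ j, (a i j : ℝ) * ((S k j : ℝ) - r j) := by
      rw [← Finset.sum_neg_distrib]
      refine Finset.sum_le_sum fun j _ => ?_
      have f1 : |(S k j : ℝ) - r j| ≤ 1 := by
        have h1 : (S k j : ℝ) ≤ 1 := by exact_mod_cast hs4 k j
        have h2 : (0 : ℝ) ≤ S k j := Nat.cast_nonneg _
        rw [abs_le]
        constructor
        · linarith [hr1 j]
        · linarith [hr0 j]
      have f2 : |(a i j : ℝ) * ((S k j : ℝ) - r j)| ≤ |(a i j : ℝ)| := by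
        rw [abs_mul]
        exact mul_le_of_le_one_right (abs_nonneg _) f1
      exact (abs_le.1 f2).1
    have e5 : (b₀ : ℝ) < B i k := by
      rw [e3]
      linarith [hNbig i]
    exact_mod_cast e5
  have hmE : ∀ k, m k = ϖ ^ (n k - ∑ j, h k j * f j) * mo x' (∑ j, h k j • g j) := by
    intro k
    rw [← hZ, hm]
  have hmV : ∀ k, (m k)⁻¹ ∉ V := by
    intro k hk
    obtain ⟨n', hn'⟩ : ∃ n', n' = n k - ∑ j, h k j * f j := ⟨_, rfl⟩
    obtain ⟨δ, hδ⟩ : ∃ δ : Fin (t + 1) → ℤ,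
      δ = n' • γ + ∑ j, (N * h k j) • g j := ⟨_, rfl⟩
    have e1 : m k ^ N = mo x' δ := by
      rw [hmE k, ← hn', mul_pow, hδ, mo_add hx'0, mo_zs, ← hϖ]
      congr 1
      · rw [← zpow_natCast, ← zpow_natCast, ← zpow_mul, ← zpow_mul, mul_comm]
      · rw [← zpow_natCast, ← mo_zs, Finset.smul_sum]
        congr 1
        exact Finset.sum_congr rfl fun j _ => by rw [smul_smul]
    have e2 : 0 < LH lam δ := by
      rw [hδ, hLc]
      refine mul_pos hGpos ?_
      have e3 : (n' : ℝ) + ∑ j, ((N * h k j : ℤ) : ℝ) * ρ j =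
          (n k : ℝ) + ∑ j, (h k j : ℝ) * r j := by
        rw [hn']
        push_cast
        have e4 : ∑ j, (N : ℝ) * (h k j : ℝ) * ρ j =
            ∑ j, (h k j : ℝ) * (f j : ℝ) + ∑ j, (h k j : ℝ) * r j := by
          rw [← Finset.sum_add_distrib]
          refine Finset.sum_congr rfl fun j _ => ?_
          have := hr' j
          linear_combination (h k j : ℝ) * this
        rw [e4]
        ring
      rw [e3]
      exact hs1 k
    have e3 : mo x' δ = mo w δ * algebraMap E F (mo x δ) := by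
      rw [map_mo', ← mo_mu]
      congr 1
      funext i
      exact hw3 i
    have e4 : (mo w δ * algebraMap E F (mo x δ))⁻¹ ∈ V := by
      rw [← e3, ← e1, ← inv_pow]
      exact pow_mem hk N
    have hwne : mo w δ ≠ 0 := mo_ne_zero hw0 δ
    have e5 : algebraMap E F (mo x δ)⁻¹ ∈ V := by
      have f1 := V.mul_mem _ _ (mo_V V hw1 hw2 δ) e4
      rw [mul_inv, mul_inv_cancel_left₀ hwne] at f1
      rw [map_inv₀]
      exact f1
    have e6 : (mo x δ)⁻¹ ∈ V.comap (algebraMap E F) := e5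
    rw [hV, Valuation.mem_valuationSubring_iff] at e6
    have e7 := hL1 δ e2
    have e8 : v (mo x δ) * v (mo x δ)⁻¹ = 1 := by
      rw [← map_mul, mul_inv_cancel₀ (mo_ne_zero hx0 δ), map_one]
    have e9 : v (mo x δ) * v (mo x δ)⁻¹ ≤ v (mo x δ) := mul_le_of_le_one_right' e6
    rw [e8] at e9
    exact absurd e7 (not_lt.2 e9)
  refine ⟨m, fun i k => (B i k).toNat, hm0, fun k => ?_, hmV, fun i => ?_, fun i k => ?_, ?_,
    fun k => ?_⟩
  · exact (V.mem_or_inv_mem (m k)).resolve_right (hmV k)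
  · rw [hxm i]
    refine Finset.prod_congr rfl fun k _ => ?_
    rw [← zpow_natCast, Int.toNat_of_nonneg (le_trans (Int.natCast_nonneg b₀) (hBpos i k).le)]
  · have h1 := hBpos i k
    change b₀ ≤ (B i k).toNat
    omega
  · have e1 := hmC fun _ => 1
    simp only [zpow_one, mul_one] at e1
    rw [e1, hs2, zpow_one]
    have e2 : ∏ j, z j ^ (∑ k, h k j) = 1 := by
      refine Finset.prod_eq_one fun j _ => ?_
      rw [hs3, zpow_zero]
    rw [e2, mul_one]
  · exact ⟨_, _, hmE k⟩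

end Pool.Agent.X140.AD
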