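import Pool.Agent.X140.AD.Adapt
import Pool.Agent.H176.DT.H11
import Pool.Agent.H176.DT.H13

/-!
# Semistable models at points of adic spaces
-/

set_option autoImplicit false
set_option linter.unusedSectionVars false
set_option linter.unusedVariables false

universe u

open IsLocalRing Polynomial Pool.Agent.W418.LU2 Pool.Agent.H176.DT

namespace Pool.Agent.X140.AD

/-- The coarsening of the extension of a valuation ring. -/
theorem exists_coarse {K K' : Type u} [Field K] [Field K'] [Algebra K K'] {V V₁ : ValuationSubring K}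
    (hV : V ≤ V₁) (V' : ValuationSubring K') (hV' : V'.comap (algebraMap K K') = V) :
    ∃ V₁' : ValuationSubring K', V' ≤ V₁' ∧ V₁'.comap (algebraMap K K') = V₁ := by
  have hmem : ∀ z : K, algebraMap K K' z ∈ V' ↔ z ∈ V := fun z => by
    rw [← hV']
    exact Iff.rfl
  let S : Subring K' :=
    { carrier := {z | ∃ s : K, s ∈ V ∧ s ≠ 0 ∧ s⁻¹ ∈ V₁ ∧ z * algebraMap K K' s ∈ V'}
      mul_mem' := by
        rintro a b ⟨s, h1, h2, h3, h4⟩ ⟨t, g1, g2, g3, g4⟩
        refine ⟨s * t, V.mul_mem _ _ h1 g1, mul_ne_zero h2 g2, ?_, ?_⟩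
        · rw [mul_inv]
          exact V₁.mul_mem _ _ h3 g3
        · have e : a * b * algebraMap K K' (s * t) =
              a * algebraMap K K' s * (b * algebraMap K K' t) := by
            rw [map_mul]
            ring
          rw [e]
          exact V'.mul_mem _ _ h4 g4
      one_mem' := ⟨1, V.one_mem, one_ne_zero, by rw [inv_one]; exact V₁.one_mem, by
        rw [map_one, mul_one]; exact V'.one_mem⟩
      add_mem' := by
        rintro a b ⟨s, h1, h2, h3, h4⟩ ⟨t, g1, g2, g3, g4⟩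
        refine ⟨s * t, V.mul_mem _ _ h1 g1, mul_ne_zero h2 g2, ?_, ?_⟩
        · rw [mul_inv]
          exact V₁.mul_mem _ _ h3 g3
        · have e : (a + b) * algebraMap K K' (s * t) =
              a * algebraMap K K' s * algebraMap K K' t +
                b * algebraMap K K' t * algebraMap K K' s := by
            rw [map_mul]
            ring
          rw [e]
          exact V'.add_mem _ _ (V'.mul_mem _ _ h4 ((hmem _).2 g1))
            (V'.mul_mem _ _ g4 ((hmem _).2 h1))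
      zero_mem' := ⟨1, V.one_mem, one_ne_zero, by rw [inv_one]; exact V₁.one_mem, by
        rw [zero_mul]; exact V'.zero_mem⟩
      neg_mem' := by
        rintro a ⟨s, h1, h2, h3, h4⟩
        exact ⟨s, h1, h2, h3, by rw [neg_mul]; exact V'.neg_mem _ h4⟩ }
  have hle : V'.toSubring ≤ S := fun z hz =>
    ⟨1, V.one_mem, one_ne_zero, by rw [inv_one]; exact V₁.one_mem, by
      rw [map_one, mul_one]; exact hz⟩
  refine ⟨V'.ofLE S hle, hle, ?_⟩
  ext z
  rw [ValuationSubring.mem_comap]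
  constructor
  · rintro ⟨s, h1, h2, h3, h4⟩
    rw [← map_mul, hmem] at h4
    have e : z = z * s * s⁻¹ := by rw [mul_inv_cancel_right₀ h2]
    rw [e]
    exact V₁.mul_mem _ _ (hV h4) h3
  · intro hz
    change algebraMap K K' z ∈ S
    rcases V.mem_or_inv_mem z with h1 | h1
    · exact hle ((hmem z).2 h1)
    · by_cases h0 : z = 0
      · rw [h0, map_zero]
        exact S.zero_mem
      · refine ⟨z⁻¹, h1, inv_ne_zero h0, by rwa [inv_inv], ?_⟩
        rw [← map_mul, mul_inv_cancel₀ h0, map_one]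
        exact V'.one_mem

section

variable {K : Type u} [Field K]

/-- The stage over the ramified extension. -/
theorem ad_stage (V : ValuationSubring K) (v : Valuation K NNReal) (hVv : V ≤ v.valuationSubring)
    (O : Subring K) (hO : ∀ a ∈ O, a ∈ V) {W : Set K}
    (hWf : W.Finite) {w : K} (hw : w ∈ W) (hw0 : w ≠ 0) (hwV : ∀ z ∈ W, z / w ∈ V)
    (hM : Mod V (ch O W w)) (hSU : SU V (ch O W w)) (π : K)
    (hπ0 : π ≠ 0) (hπ1 : v π < 1) (hdiv : ∀ q : ℕ, q.Prime → ∀ z : K, v z ^ q ≠ v π) :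
    ∃ N₀ : ℕ, ∀ N : ℕ, N₀ ≤ N → 0 < N →
      ∀ {K' : Type u} [Field K'] [Algebra K K'] (V' : ValuationSubring K') (ϖ : K'),
      V'.comap (algebraMap K K') = V → ϖ ^ N = algebraMap K K' π →
      (∀ z : K', z ∈ Subfield.closure (Set.range (algebraMap K K') ∪ {ϖ})) →
      ∃ (T' : Set K') (s : ℕ) (m : Fin s → K'), 0 < s ∧
        St V' (ch (Orm O ϖ) (algebraMap K K' '' W) (algebraMap K K' w)) T' m ∧
        (∀ j, (m j)⁻¹ ∉ V') ∧ ∏ j, m j = ϖ := by
  classical
  obtain ⟨T, s₂, s₁, x, hSt, hxV, hx2, hx1, hind₁, hmon⟩ := adapted V v.valuationSubring hVv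
    (ch O W w) hSU {π} (Set.finite_singleton π) (by rintro g rfl; exact hπ0)
  obtain ⟨u, hu0, hu1, hu2, γ, hγ⟩ := hmon π rfl
  have hx0 := hSt.reg.ne
  have hPV : PP V (ch O W w) T ≤ V.toSubring := hSt.reg.PA
  have hvu : v u = 1 := (vs_one v u).1 ((val_one_iff _ u).2 ⟨hu0, hVv (hPV hu1), hVv (hPV hu2)⟩)
  obtain ⟨h, hh⟩ : ∃ h : Fin s₂ → K, h = fun l => x (Fin.castAdd s₁ l) := ⟨_, rfl⟩
  obtain ⟨y, hy⟩ : ∃ y : Fin s₁ → K, y = fun j => x (Fin.natAdd s₂ j) := ⟨_, rfl⟩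
  obtain ⟨α, hα⟩ : ∃ α : Fin s₂ → ℤ, α = fun l => γ (Fin.castAdd s₁ l) := ⟨_, rfl⟩
  obtain ⟨β, hβ⟩ : ∃ β : Fin s₁ → ℤ, β = fun j => γ (Fin.natAdd s₂ j) := ⟨_, rfl⟩
  have hxh : ∀ l, x (Fin.castAdd s₁ l) = h l := fun l => by rw [hh]
  have hxy : ∀ j, x (Fin.natAdd s₂ j) = y j := fun j => by rw [hy]
  have hh0 : ∀ l, h l ≠ 0 := fun l => by rw [← hxh]; exact hx0 _
  have hy0 : ∀ j, y j ≠ 0 := fun j => by rw [← hxy]; exact hx0 _
  have hsplit : mo x γ = mo h α * mo y β := by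
    unfold mo
    rw [Fin.prod_univ_add, hh, hy, hα, hβ]
  have hvh : ∀ l, v (h l) = 1 := fun l => by
    rw [← vs_one, val_one_iff]
    refine ⟨hh0 l, hVv ?_, ?_⟩
    · rw [← hxh]
      exact hPV (hSt.reg.mem _)
    · rw [← hxh]
      exact hx2 l
  have hvmh : ∀ δ, v (mo h δ) = 1 := by
    intro δ
    unfold mo
    rw [map_prod]
    refine Finset.prod_eq_one fun l _ => ?_
    rw [map_zpow₀, hvh, one_zpow]
  have hvy : ∀ j, v (y j) < 1 := fun j => by
    rw [← hxy]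
    exact vs_lt v (hVv (hPV (hSt.reg.mem _))) (hx1 j)
  have hvind : ∀ δ : Fin s₁ → ℤ, v (mo y δ) = 1 → δ = 0 := fun δ hδ => by
    refine hind₁ δ ?_
    rw [vs_one, ← hδ, hy]
  have hvβ : v (mo y β) = v π := by
    rw [hγ, hsplit, map_mul, map_mul, hvu, hvmh, one_mul, one_mul]
  have hβ0 : β ≠ 0 := by
    intro h0
    rw [h0, mo_zero, map_one] at hvβ
    rw [← hvβ] at hπ1
    exact lt_irrefl _ hπ1
  obtain ⟨c, hc⟩ : ∃ c : Fin s₁ → ℤ, ∑ i, c i * β i = 1 := by
    obtain ⟨d, γ0, c, hd, hγd, hc⟩ := exists_content β hβ0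
    have hmoγ : mo y β = mo y γ0 ^ d := by
      have h1 : β = (d : ℤ) • γ0 := funext fun i => hγd i
      rw [h1, Pool.Agent.Y67.DT.mo_zsmul, zpow_natCast]
    have hd1 : d = 1 := by
      by_contra hne
      obtain ⟨q, hq, e, he⟩ := Nat.exists_prime_and_dvd hne
      refine hdiv q hq (mo y γ0 ^ e) ?_
      rw [← map_pow, ← pow_mul, mul_comm e q, ← he, ← hmoγ, hvβ]
    refine ⟨c, ?_⟩
    have h1 : β = γ0 := funext fun i => by rw [hγd i, hd1]; simp
    rw [h1]
    exact hc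
  obtain ⟨t, rfl⟩ : ∃ t, s₁ = t + 1 := by
    rcases Nat.eq_zero_or_pos s₁ with h0 | h0
    · subst h0
      rw [Finset.univ_eq_empty, Finset.sum_empty] at hc
      exact absurd hc zero_ne_one
    · exact ⟨s₁ - 1, by omega⟩
  obtain ⟨u₁, hu₁⟩ : ∃ u₁ : K, u₁ = u * mo h α := ⟨_, rfl⟩
  have hu₁0 : u₁ ≠ 0 := by rw [hu₁]; exact mul_ne_zero hu0 (mo_ne_zero hh0 _)
  have hπu : π = u₁ * mo y β := by rw [hγ, hsplit, hu₁, mul_assoc]
  have hvu₁ : v u₁ = 1 := by rw [hu₁, map_mul, hvu, hvmh, one_mul]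
  -- the bound
  obtain ⟨b₀, hb₀⟩ : ∃ b₀ : ℕ, b₀ = ∑ j, ∑ l, (c j * α l).natAbs + 1 := ⟨_, rfl⟩
  have hb₀' : ∀ j l, c j * α l ≤ b₀ := by
    intro j l
    have h1 : (c j * α l).natAbs ≤ ∑ l, (c j * α l).natAbs :=
      Finset.single_le_sum (f := fun l => (c j * α l).natAbs) (fun _ _ => Nat.zero_le _)
        (Finset.mem_univ l)
    have h2 : ∑ l, (c j * α l).natAbs ≤ ∑ j, ∑ l, (c j * α l).natAbs :=
      Finset.single_le_sum (f := fun j => ∑ l, (c j * α l).natAbs) (fun _ _ => Nat.zero_le _)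
        (Finset.mem_univ j)
    omega
  obtain ⟨N1, hN1⟩ := comb_b p_lat6 p_sort6 v y hy0 hvy hvind β ⟨c, hc⟩ (by rw [hvβ]; exact hπ1)
    b₀
  refine ⟨N1, ?_⟩
  intro N hNN hN0 K' _ _ V' ϖ hV' hϖ hgen
  obtain ⟨V₁', hV₁', hV₁c⟩ := exists_coarse hVv V' hV'
  set φ := algebraMap K K' with hφ
  have hφ0 : ∀ {z : K}, z ≠ 0 → φ z ≠ 0 := fun h => (_root_.map_ne_zero φ).2 h
  have hmem : ∀ z : K, φ z ∈ V' ↔ z ∈ V := fun z => by
    rw [← hV']
    exact Iff.rfl
  have hmem₁ : ∀ z : K, φ z ∈ V₁' ↔ v z ≤ 1 := fun z => by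
    have h1 : φ z ∈ V₁' ↔ z ∈ V₁'.comap (algebraMap K K') := Iff.rfl
    rw [h1, hV₁c]
    exact Iff.rfl
  have hϖ0 : ϖ ≠ 0 := by
    rintro rfl
    rw [zero_pow hN0.ne'] at hϖ
    exact hφ0 hπ0 hϖ.symm
  set x' : Fin (t + 1) → K' := fun j => φ u₁ ^ c j * φ (y j) with hx'
  have hϖN : ϖ ^ N = mo x' β := by
    rw [hx', mo_mul_fun, mo_zpow_const (hφ0 hu₁0), hc, zpow_one, ← map_mo, ← map_mul, ← hπu, hϖ]
  obtain ⟨m₁, A₁, hm0, hmV, hmV', hxm, hA, hprod, hmm⟩ := hN1 N hNN hN0 V₁' hV₁c x'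
    (fun i => ⟨φ u₁ ^ c i, zpow_ne_zero _ (hφ0 hu₁0), by
      rw [← map_zpow₀, hmem₁, map_zpow₀, hvu₁, one_zpow], by
      rw [← zpow_neg, ← map_zpow₀, hmem₁, map_zpow₀, hvu₁, one_zpow], rfl⟩) ϖ hϖN
  -- the parameters
  obtain ⟨H, hH⟩ : ∃ H : K', H = ∏ l, φ (h l) := ⟨_, rfl⟩
  have hH0 : H ≠ 0 := by
    rw [hH]
    exact Finset.prod_ne_zero_iff.2 fun l _ => hφ0 (hh0 l)
  have hHi : H⁻¹ ∈ V₁' := by
    rw [hH, ← map_prod, ← map_inv₀, hmem₁, map_inv₀, map_prod]
    simp only [hvh, Finset.prod_const_one, inv_one, le_refl]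
  obtain ⟨m₂, hm₂⟩ : ∃ m₂ : Fin (t + 1) → K',
    m₂ = fun k => if k = 0 then m₁ 0 * H⁻¹ else m₁ k := ⟨_, rfl⟩
  have hm₂z : m₂ 0 = m₁ 0 * H⁻¹ := by rw [hm₂]; exact if_pos rfl
  have hm₂s : ∀ k : Fin t, m₂ k.succ = m₁ k.succ := fun k => by
    rw [hm₂]
    exact if_neg (Fin.succ_ne_zero k)
  have hm₂0 : ∀ k, m₂ k ≠ 0 := by
    intro k
    refine Fin.cases ?_ (fun k => ?_) k
    · rw [hm₂z]
      exact mul_ne_zero (hm0 0) (inv_ne_zero hH0)
    · rw [hm₂s]
      exact hm0 _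
  have hm₂V : ∀ k, (m₂ k)⁻¹ ∉ V₁' := by
    intro k
    refine Fin.cases ?_ (fun k => ?_) k
    · rw [hm₂z, mul_inv, inv_inv]
      intro h1
      have h2 := V₁'.mul_mem _ _ h1 hHi
      rw [mul_assoc, mul_inv_cancel₀ hH0, mul_one] at h2
      exact hmV' 0 h2
    · rw [hm₂s]
      exact hmV' _
  obtain ⟨m, hm⟩ : ∃ m : Fin (s₂ + (t + 1)) → K', m = Fin.append (fun l => φ (h l)) m₂ := ⟨_, rfl⟩
  have hml : ∀ l, m (Fin.castAdd (t + 1) l) = φ (h l) := fun l => by
    rw [hm, Fin.append_left]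
  have hmr : ∀ k, m (Fin.natAdd s₂ k) = m₂ k := fun k => by
    rw [hm, Fin.append_right]
  have hmne : ∀ i, m i ≠ 0 := by
    intro i
    refine Fin.addCases (fun l => ?_) (fun k => ?_) i
    · rw [hml]
      exact hφ0 (hh0 l)
    · rw [hmr]
      exact hm₂0 k
  have hmnu : ∀ i, (m i)⁻¹ ∉ V' := by
    intro i
    refine Fin.addCases (fun l => ?_) (fun k => ?_) i
    · rw [hml, ← map_inv₀, hmem, ← hxh]
      exact hxV _
    · rw [hmr]
      exact fun h1 => hm₂V k (hV₁' h1)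
  have hmmem : ∀ i, m i ∈ V' := fun i => (V'.mem_or_inv_mem (m i)).resolve_right (hmnu i)
  have hprodm : ∏ i, m i = ϖ := by
    rw [Fin.prod_univ_add]
    simp only [hml, hmr]
    rw [← hH, ← hprod, Fin.prod_univ_succ, Fin.prod_univ_succ, hm₂z]
    simp only [hm₂s]
    rw [← mul_assoc, mul_comm H, inv_mul_cancel_right₀ hH0]
  -- the exponents
  obtain ⟨A, hAl, hAr⟩ : ∃ A : Fin (s₂ + (t + 1)) → Fin (s₂ + (t + 1)) → ℕ,
      (∀ l, A (Fin.castAdd (t + 1) l) = Pi.single (Fin.castAdd (t + 1) l) 1) ∧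
      ∀ j, A (Fin.natAdd s₂ j) = Fin.append (fun l => ((A₁ j 0 : ℤ) - c j * α l).toNat)
        (A₁ j) := by
    refine ⟨Fin.addCases (fun l => Pi.single (Fin.castAdd (t + 1) l) 1) (fun j =>
      Fin.append (fun l => ((A₁ j 0 : ℤ) - c j * α l).toNat) (A₁ j)), fun l => ?_, fun j => ?_⟩
    · beta_reduce
      rw [Fin.addCases_left]
    · beta_reduce
      rw [Fin.addCases_right]
  obtain ⟨cc, hcl, hcr⟩ : ∃ cc : Fin (s₂ + (t + 1)) → ℤ, (∀ l, cc (Fin.castAdd (t + 1) l) = 0) ∧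
      ∀ j, cc (Fin.natAdd s₂ j) = c j :=
    ⟨Fin.append (fun _ => 0) c, fun l => Fin.append_left _ _ l, fun j => Fin.append_right _ _ j⟩
  have hHz : ∀ n : ℤ, H ^ n = ∏ l, φ (h l) ^ n := fun n => by
    rw [hH, Finset.prod_zpow]
  have hAxm : ∀ i, φ (x i) * φ u ^ (cc i) = ∏ j, m j ^ A i j := by
    intro i
    refine Fin.addCases (fun l => ?_) (fun j => ?_) i
    · rw [hcl, zpow_zero, mul_one, hAl, Finset.prod_eq_single (Fin.castAdd (t + 1) l)]
      · rw [Pi.single_eq_same, pow_one, hml, hxh]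
      · intro k _ hk
        rw [Pi.single_eq_of_ne hk, pow_zero]
      · intro h1
        exact absurd (Finset.mem_univ _) h1
    · rw [hcr, hxy, Fin.prod_univ_add, hAr]
      simp only [Fin.append_left, Fin.append_right, hml, hmr]
      have e1 : ∀ l, φ (h l) ^ ((A₁ j 0 : ℤ) - c j * α l).toNat =
          φ (h l) ^ (A₁ j 0 : ℤ) * φ (h l) ^ (-(c j * α l)) := by
        intro l
        have h1 : (0 : ℤ) ≤ (A₁ j 0 : ℤ) - c j * α l := by
          have h2 := hb₀' j l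
          have h3 : (b₀ : ℤ) ≤ A₁ j 0 := by exact_mod_cast hA j 0
          linarith
        rw [← zpow_natCast, Int.toNat_of_nonneg h1, sub_eq_add_neg, zpow_add₀ (hφ0 (hh0 l))]
      rw [Finset.prod_congr rfl fun l _ => e1 l, Finset.prod_mul_distrib, ← hHz,
        Fin.prod_univ_succ (fun k => m₂ k ^ A₁ j k), hm₂z]
      simp only [hm₂s]
      have e2 : ∏ l, φ (h l) ^ (-(c j * α l)) = (φ (mo h α) ^ c j)⁻¹ := by
        rw [← zpow_neg, map_mo]
        unfold mo
        rw [← Finset.prod_zpow]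
        refine Finset.prod_congr rfl fun l _ => ?_
        rw [← zpow_mul]
        congr 1
        ring
      rw [e2, mul_pow, inv_pow, zpow_natCast]
      have e3 := hxm j
      rw [Fin.prod_univ_succ] at e3
      have e4 : x' j = φ u ^ c j * φ (mo h α) ^ c j * φ (y j) := by
        rw [hx']
        simp only
        rw [hu₁, map_mul, mul_zpow]
      rw [e4] at e3
      have hz1 : φ (mo h α) ^ c j ≠ 0 := zpow_ne_zero _ (hφ0 (mo_ne_zero hh0 _))
      have hz2 : H ^ A₁ j 0 ≠ 0 := pow_ne_zero _ hH0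
      calc φ (y j) * φ u ^ c j = (φ u ^ c j * φ (mo h α) ^ c j * φ (y j)) *
            (φ (mo h α) ^ c j)⁻¹ := by field_simp
        _ = _ := by
            rw [e3]
            field_simp
  have hAne : ∀ i, ∃ j, A i j ≠ 0 := by
    intro i
    refine Fin.addCases (fun l => ?_) (fun j => ?_) i
    · refine ⟨Fin.castAdd (t + 1) l, ?_⟩
      rw [hAl, Pi.single_eq_same]
      exact one_ne_zero
    · refine ⟨Fin.natAdd s₂ 0, ?_⟩
      rw [hAr, Fin.append_right]
      have h1 := hA j 0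
      omega
  have hs : 0 < s₂ + (t + 1) := by omega
  -- the local ring
  set C : Subring K := Subring.closure ((ch O W w : Set K) ∪ T) with hC
  have hregC : RegP (V'.comap (algebraMap K K')).toSubring
      (lo (V'.comap (algebraMap K K')).toSubring C) x := by
    rw [hV']
    exact hSt.reg
  have hCV : C ≤ (V'.comap (algebraMap K K')).toSubring := (le_lo _ _).trans hregC.PA
  have hCK : ∀ a : K, ∃ b ∈ C, b ≠ 0 ∧ a * b ∈ C := by
    intro a
    obtain ⟨a, ha, b, hb, hb0, rfl⟩ := hM.2 a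
    refine ⟨b, Subring.subset_closure (Or.inl hb), hb0, ?_⟩
    rw [mul_assoc, inv_mul_cancel₀ hb0, mul_one]
    exact Subring.subset_closure (Or.inl ha)
  have hϖm : ϖ ∈ Subfield.closure (Set.range (algebraMap K K') ∪ Set.range m) := by
    rw [← hprodm]
    exact prod_mem fun j _ => Subfield.subset_closure (Or.inr ⟨j, rfl⟩)
  have halg : Algebra.IsAlgebraic K K' := by
    have hint : IsIntegral K ϖ := by
      refine ⟨X ^ N - Polynomial.C π, monic_X_pow_sub_C _ hN0.ne', ?_⟩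
      rw [eval₂_sub, eval₂_X_pow, eval₂_C, hϖ, sub_self]
    refine ⟨fun z => ?_⟩
    obtain ⟨f, rfl⟩ := gen_alg hint (hgen z)
    exact (adjoin_le_integralClosure hint (aeval_mem_adjoin_singleton K ϖ)).isAlgebraic
  set ω : K' := φ u with hω
  have hω0 : ω ≠ 0 := hφ0 hu0
  have hP := ss_reg p_et6 p_tor6 V' C hCV hCK x hregC (fun i h => hxV i (by rw [← hV']; exact h))
    ω 1 one_pos u hu0 (by rw [hV']; exact hu1) (by rw [hV']; exact hu2) (pow_one _) (by
      rw [Nat.cast_one, map_one]) cc m A hmne hmmem hmnu hAxm hAne (fun z => by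
      have h1 : Subfield.closure (Set.range (algebraMap K K') ∪ {ϖ}) ≤
          Subfield.closure (Set.range (algebraMap K K') ∪ Set.range m) := by
        rw [Subfield.closure_le]
        rintro z (hz | hz)
        · exact Subfield.subset_closure (Or.inl hz)
        · rw [Set.mem_singleton_iff.1 hz]
          exact hϖm
      exact h1 (hgen z)) halg
  -- the model
  set O' : Subring K' := Orm O ϖ with hO'
  set A' : Subring K' := ch O' (φ '' W) (φ w) with hA'
  set T' : Set K' := φ '' T ∪ ({ω} ∪ Set.range m) with hT'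
  have hϖO : ϖ ∈ O' := Subring.subset_closure (Or.inr rfl)
  have hOA : ∀ z ∈ O', z ∈ A' := fun z hz => Subring.subset_closure (Or.inl hz)
  have hAA : ∀ a ∈ ch O W w, φ a ∈ A' := by
    have h1 : ch O W w ≤ A'.comap φ := by
      rw [Subring.closure_le]
      rintro z (hz | ⟨v, hv, rfl⟩)
      · exact hOA _ (Subring.subset_closure (Or.inl ⟨z, hz, rfl⟩))
      · refine Subring.subset_closure (Or.inr ⟨φ v, ⟨v, hv, rfl⟩, ?_⟩)
        rw [map_div₀]
    exact fun a ha => h1 ha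
  have hcl' : Subring.closure ((A' : Set K') ∪ T') =
      Subring.closure ((C.map (algebraMap K K') : Set K') ∪ ({ω} ∪ Set.range m)) := by
    have h1 : ∀ a ∈ C, φ a ∈ Subring.closure ((A' : Set K') ∪ T') := by
      have h2 : C ≤ (Subring.closure ((A' : Set K') ∪ T')).comap φ := by
        rw [hC, Subring.closure_le]
        rintro z (hz | hz)
        · exact Subring.subset_closure (Or.inl (hAA z hz))
        · exact Subring.subset_closure (Or.inr (Or.inl ⟨z, hz, rfl⟩))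
      exact fun a ha => h2 ha
    have h3 : ∀ a ∈ C, φ a ∈ Subring.closure ((C.map (algebraMap K K') : Set K') ∪
        ({ω} ∪ Set.range m)) := fun a ha => Subring.subset_closure (Or.inl ⟨a, ha, rfl⟩)
    have h4 : ϖ ∈ Subring.closure ((C.map (algebraMap K K') : Set K') ∪
        ({ω} ∪ Set.range m)) := by
      rw [← hprodm]
      exact Subring.prod_mem _ fun j _ => Subring.subset_closure (Or.inr (Or.inr ⟨j, rfl⟩))
    apply le_antisymm
    · rw [Subring.closure_le]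
      rintro z (hz | ⟨a, ha, rfl⟩ | hz)
      · refine (?_ : A' ≤ _) hz
        rw [hA', Subring.closure_le]
        rintro z (hz | ⟨_, ⟨v, hv, rfl⟩, rfl⟩)
        · refine (?_ : O' ≤ _) hz
          rw [hO', Subring.closure_le]
          rintro z (⟨a, ha, rfl⟩ | hz)
          · exact h3 a (Subring.subset_closure (Or.inl (Subring.subset_closure (Or.inl ha))))
          · rw [Set.mem_singleton_iff.1 hz]
            exact h4
        · rw [← map_div₀]
          exact h3 _ (Subring.subset_closure (Or.inl (Subring.subset_closure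
            (Or.inr ⟨v, hv, rfl⟩))))
      · exact h3 a (Subring.subset_closure (Or.inr ha))
      · exact Subring.subset_closure (Or.inr hz)
    · rw [Subring.closure_le]
      rintro z (⟨a, ha, rfl⟩ | hz)
      · exact h1 a ha
      · exact Subring.subset_closure (Or.inr (Or.inr hz))
  have hP' : RegP V'.toSubring (PP V' A' T') m := by
    unfold PP
    rw [hcl']
    exact hP
  have hclV : Subring.closure ((A' : Set K') ∪ T') ≤ V'.toSubring := (le_lo _ _).trans hP'.PA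
  have hωP : ω ∈ PP V' A' T' :=
    le_lo _ _ (Subring.subset_closure (Or.inr (Or.inr (Or.inl rfl))))
  have hωP' : ω⁻¹ ∈ PP V' A' T' := by
    refine inv_mem_lo hclV hωP hω0 ?_
    change (φ u)⁻¹ ∈ V'
    rw [← map_inv₀, hmem]
    exact hPV hu2
  have hCP : ∀ a ∈ PP V (ch O W w) T, φ a ∈ PP V' A' T' := by
    intro a ha
    have h1 : φ a ∈ lo V'.toSubring (C.map (algebraMap K K')) := by
      rw [lo_map (algebraMap K K') (A' := (V'.comap (algebraMap K K')).toSubring)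
        (fun e => Iff.rfl)]
      rw [hV']
      exact ⟨a, ha, rfl⟩
    have h2 : lo V'.toSubring (C.map (algebraMap K K')) ≤ PP V' A' T' := by
      unfold PP
      rw [hcl']
      exact lo_mono fun z hz => Subring.subset_closure (Or.inl hz)
    exact h2 h1
  -- monomials
  have hpω : PMon (PP V' A' T') m ω := ⟨ω, hω0, hωP, hωP', 0, by rw [mo_zero, mul_one]⟩
  have hpx : ∀ i, PMon (PP V' A' T') m (φ (x i)) := by
    intro i
    have h1 : φ (x i) = (ω ^ cc i)⁻¹ * mo m (fun j => (A i j : ℤ)) := by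
      have h2 := hAxm i
      have h3 : mo m (fun j => (A i j : ℤ)) = ∏ j, m j ^ A i j := by
        unfold mo
        exact Finset.prod_congr rfl fun j _ => zpow_natCast _ _
      rw [h3, ← h2, mul_comm (φ (x i)), ← mul_assoc, inv_mul_cancel₀ (zpow_ne_zero _ hω0), one_mul]
    rw [h1]
    exact (pmon_zpow hmne hpω _).inv.mul hmne ⟨1, one_ne_zero, Subring.one_mem _, by
      rw [inv_one]; exact Subring.one_mem _, _, (one_mul _).symm⟩
  have hmo1 : mo m (fun _ => 1) = ϖ := by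
    rw [← hprodm]
    unfold mo
    exact Finset.prod_congr rfl fun j _ => zpow_one _
  have hpϖ : PMon (PP V' A' T') m ϖ := ⟨1, one_ne_zero, Subring.one_mem _, by
    rw [inv_one]; exact Subring.one_mem _, fun _ => 1, by rw [one_mul, hmo1]⟩
  obtain ⟨b, hb, hbm, hbT, hbx⟩ := hSt.den
  have hpb : PMon (PP V' A' T') m (φ b) := by
    obtain ⟨u1, a0, a1, a2, δ, ha⟩ := hbm
    rw [ha, map_mul, map_mo]
    refine PMon.mul hmne ⟨φ u1, hφ0 a0, hCP _ a1, ?_, 0, by rw [mo_zero, mul_one]⟩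
      (pmon_mo hmne hpx δ)
    rw [← map_inv₀]
    exact hCP _ a2
  have hfx : ∀ i, Fra A' (PP V' A' T') m (φ (x i)) := fun i =>
    ⟨hpx i, φ b, hAA _ hb, hpb, by rw [← map_mul]; exact hAA _ (hbx i)⟩
  have hfϖ : Fra A' (PP V' A' T') m ϖ := ⟨hpϖ, 1, A'.one_mem, PMon.one, by
    rw [one_mul]; exact hOA _ hϖO⟩
  have hfω : Fra A' (PP V' A' T') m ω := by
    have e1 : ω = ϖ ^ N * (mo (fun i => φ (x i)) γ)⁻¹ := by
      rw [hϖ, ← map_mo, hγ, map_mul, mul_inv_cancel_right₀ (hφ0 (mo_ne_zero hx0 _))]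
    rw [e1]
    exact (hfϖ.pow hmne N).mul hmne ((Fra.mo hmne (fun i => hφ0 (hx0 i)) hfx γ).inv hmne
      (mo_ne_zero (fun i => hφ0 (hx0 i)) _))
  have hfh : ∀ l, Fra A' (PP V' A' T') m (φ (h l)) := fun l => by
    rw [← hxh]
    exact hfx _
  have hfy : ∀ j, Fra A' (PP V' A' T') m (φ (y j)) := fun j => by
    rw [← hxy]
    exact hfx _
  have hfu₁ : Fra A' (PP V' A' T') m (φ u₁) := by
    have e1 : φ u₁ = ω * mo (fun l => φ (h l)) α := by
      rw [hu₁, map_mul, map_mo]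
    rw [e1]
    exact hfω.mul hmne (Fra.mo hmne (fun l => hφ0 (hh0 l)) hfh α)
  have hfH : Fra A' (PP V' A' T') m H := by
    have e1 : H = mo (fun l => φ (h l)) (fun _ => 1) := by
      rw [hH]
      unfold mo
      exact Finset.prod_congr rfl fun l _ => (zpow_one _).symm
    rw [e1]
    exact Fra.mo hmne (fun l => hφ0 (hh0 l)) hfh _
  have hx'0 : ∀ i, x' i ≠ 0 := fun i => mul_ne_zero (zpow_ne_zero _ (hφ0 hu₁0)) (hφ0 (hy0 i))
  have hfx' : ∀ i, Fra A' (PP V' A' T') m (x' i) := fun i =>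
    (hfu₁.zpow hmne (hφ0 hu₁0) (c i)).mul hmne (hfy i)
  have hfm₁ : ∀ j, Fra A' (PP V' A' T') m (m₁ j) := by
    intro j
    obtain ⟨n, g, h⟩ := hmm j
    rw [h]
    exact (hfϖ.zpow hmne hϖ0 n).mul hmne (Fra.mo hmne hx'0 hfx' g)
  have hfm : ∀ j, Fra A' (PP V' A' T') m (m j) := by
    intro j
    refine Fin.addCases (fun l => ?_) (fun k => ?_) j
    · rw [hml]
      exact hfh l
    · rw [hmr]
      refine Fin.cases ?_ (fun k => ?_) k
      · rw [hm₂z]
        exact (hfm₁ 0).mul hmne (hfH.inv hmne hH0)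
      · rw [hm₂s]
        exact hfm₁ _
  have hT'f : T'.Finite := (hSt.fin.image _).union
    ((Set.finite_singleton _).union (Set.finite_range _))
  obtain ⟨δ, hδ, hδm, hδT⟩ := exists_den (A := A') (P := PP V' A' T') hmne hT'f (by
    rintro z (⟨a, ha, rfl⟩ | hz | ⟨j, rfl⟩)
    · exact ⟨φ b, hAA _ hb, hpb, by rw [← map_mul]; exact hAA _ (hbT a ha)⟩
    · rw [Set.mem_singleton_iff.1 hz]
      exact hfω.2
    · exact (hfm j).2)
  exact ⟨T', _, m, hs, ⟨hT'f, hP', δ, hδ, hδm, hδT, fun j => hδT _ (Or.inr (Or.inr ⟨j, rfl⟩))⟩,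
    hmnu, hprodm⟩

/-- Semistable models. -/
theorem ad_main (V : ValuationSubring K) (v : Valuation K NNReal) (hVv : V ≤ v.valuationSubring)
    (O : Subring K) (hO : ∀ a ∈ O, a ∈ V) {W : Set K}
    (hWf : W.Finite) {w : K} (hw : w ∈ W) (hw0 : w ≠ 0) (hwV : ∀ z ∈ W, z / w ∈ V)
    (hM : Mod V (ch O W w)) (hSU : SU V (ch O W w)) (π : K)
    (hπ0 : π ≠ 0) (hπ1 : v π < 1) (hdiv : ∀ q : ℕ, q.Prime → ∀ z : K, v z ^ q ≠ v π) :
    ∃ N₀ : ℕ, ∀ N : ℕ, N₀ ≤ N → 0 < N →
      ∀ {K' : Type u} [Field K'] [Algebra K K'] (V' : ValuationSubring K') (ϖ : K'),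
      V'.comap (algebraMap K K') = V → ϖ ^ N = algebraMap K K' π →
      (∀ z : K', z ∈ Subfield.closure (Set.range (algebraMap K K') ∪ {ϖ})) →
      ∃ (Y : Set K') (d' n' : ℕ), Y.Finite ∧
        Y ⊆ ((Submodule.span (Orm O ϖ) (algebraMap K K' '' W)) ^ d' :
          Submodule (Orm O ϖ) K') ∧
        (∀ z ∈ (Submodule.span (Orm O ϖ) (algebraMap K K' '' W)) ^ d',
          ϖ ^ n' * z ∈ Submodule.span (Orm O ϖ) Y) ∧
        ∃ w' ∈ bu (algebraMap K K' '' W) Y, w' ≠ 0 ∧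
          (∀ z ∈ bu (algebraMap K K' '' W) Y, z / w' ∈ V') ∧
          ∃ P : Subring K',
            lo V'.toSubring (ch (Orm O ϖ) (bu (algebraMap K K' '' W) Y) w') = P ∧
            ∃ (_ : IsRegularLocalRing P) (n : ℕ) (y : Fin n → P) (S : Finset (Fin n)),
              Ideal.span (Set.range y) = maximalIdeal P ∧ ringKrullDim P = n ∧
              S.Nonempty ∧ ϖ = ∏ i ∈ S, (y i : K') := by
  obtain ⟨N₀, hN⟩ := ad_stage V v hVv O hO hWf hw hw0 hwV hM hSU π hπ0 hπ1 hdiv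
  refine ⟨N₀, ?_⟩
  intro N hN0 hNpos K' _ _ V' ϖ hV' hϖ hgen
  obtain ⟨T', s, m, hs, hSt, hmV, hprod⟩ := hN N hN0 hNpos V' ϖ hV' hϖ hgen
  have hmem : ∀ z : K, algebraMap K K' z ∈ V' ↔ z ∈ V := by
    intro z
    rw [← hV']
    exact Iff.rfl
  have hϖV : ϖ ∈ V' := by
    rw [← hprod]
    exact prod_mem fun j _ => hSt.reg.PA (hSt.reg.mem j)
  have hO' : ∀ a ∈ Orm O ϖ, a ∈ V' := by
    have h1 : Orm O ϖ ≤ V'.toSubring := by
      rw [Subring.closure_le]
      rintro z (⟨a, ha, rfl⟩ | hz)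
      · exact (hmem a).2 (hO a ha)
      · rw [Set.mem_singleton_iff.1 hz]
        exact hϖV
    exact fun a ha => h1 ha
  have hmo1 : mo m (fun _ => 1) = ϖ := by
    rw [← hprod]
    unfold mo
    exact Finset.prod_congr rfl fun j _ => zpow_one _
  obtain ⟨Y, d', n', h1, h2, h3, w', h4, h5, h6, h7⟩ :=
    model_stage V' (Orm O ϖ) hO' (hWf.image _) (w := algebraMap K K' w) ⟨w, hw, rfl⟩
      ((_root_.map_ne_zero _).2 hw0) (by
        rintro _ ⟨z, hz, rfl⟩
        rw [← map_div₀]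
        exact (hmem _).2 (hwV z hz)) (p := ϖ) (Subring.subset_closure (Or.inr rfl)) hSt (u := 1)
      (η := fun _ => 1) (Subring.one_mem _) (by rw [inv_one]; exact Subring.one_mem _)
      one_ne_zero (by rw [one_mul, hmo1]) (fun _ => one_pos)
  refine ⟨Y, d', n', h1, h2, h3, w', h4, h5, h6, _, h7, ?_⟩
  obtain ⟨hr, n, y, S, e1, e2, e3, e4⟩ := semi_of_stage V' hs hSt hmV
  exact ⟨hr, n, y, S, e1, e2, e3, hprod.symm.trans e4⟩

end

end Pool.Agent.X140.AD
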